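import Pool.Agent.Helper37.OF.St

/-!
# Project OF (MP_121524_al), module LOC: the local Freiheitssatz
-/

set_option autoImplicit false

namespace Pool.Agent.Helper32.OF

open Pool.Agent.Helper37.OF Monoid Pool.Agent.Helper4.FS

universe u v w x

section

variable (k : Type w) [Field k] {I : Type x} (J : Finset I) (z : I)

/-- the index set without `z` -/
private abbrev J' : Type x := {i : I // i ∈ J ∧ i ≠ z}

open Classical in
/-- the copy `z` becomes the second factor -/
private noncomputable def th : Fp (P2 k) I →* Coprod (Fp (P2 k) (J' J z)) (P2 k) :=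
  CoprodI.lift fun i => if i = z then Coprod.inr else
    if h : i ∈ J ∧ i ≠ z then
      Coprod.inl.comp (CoprodI.of (M := fun _ : J' J z => P2 k) (i := ⟨i, h⟩)) else 1

/-- the map back -/
private noncomputable def th' : Coprod (Fp (P2 k) (J' J z)) (P2 k) →* Fp (P2 k) I :=
  Coprod.lift (CoprodI.lift fun i : J' J z => CoprodI.of (M := fun _ : I => P2 k) (i := i.1))
    (CoprodI.of (M := fun _ : I => P2 k) (i := z))

private theorem th_z (g : P2 k) : th k J z (ofi z g) = Coprod.inr g := by
  unfold th ofi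
  rw [CoprodI.lift_of, if_pos rfl]

private theorem th_in {i : I} (h : i ∈ J ∧ i ≠ z) (g : P2 k) :
    th k J z (ofi i g) = Coprod.inl (ofi (⟨i, h⟩ : J' J z) g) := by
  unfold th ofi
  rw [CoprodI.lift_of, if_neg h.2, dif_pos h]
  rfl

private theorem th_out {i : I} (h : i ∉ J) (h' : i ≠ z) (g : P2 k) : th k J z (ofi i g) = 1 := by
  unfold th ofi
  rw [CoprodI.lift_of, if_neg h', dif_neg (fun h2 => h h2.1)]
  rfl

private theorem th'_inr (g : P2 k) : th' k J z (Coprod.inr g) = ofi z g := by
  unfold th' ofi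
  rw [Coprod.lift_apply_inr]

private theorem th'_inl (i : J' J z) (g : P2 k) : th' k J z (Coprod.inl (ofi i g)) = ofi i.1 g := by
  unfold th' ofi
  rw [Coprod.lift_apply_inl, CoprodI.lift_of]

private theorem th'_th {Y : Set I} (hY : Y = {i | i = z ∨ i ∈ J}) {y : Fp (P2 k) I}
    (hy : y ∈ Sb (P2 k) I Y) : th' k J z (th k J z y) = y := by
  refine hom_eq_on ((th' k J z).comp (th k J z)) (MonoidHom.id _) (fun i hi g => ?_) hy
  rw [MonoidHom.comp_apply, MonoidHom.id_apply]
  by_cases h : i = z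
  · subst h
    rw [th_z, th'_inr]
  · have hJ : i ∈ J := by
      rw [hY] at hi
      rcases hi with h1 | h1
      · exact absurd h1 h
      · exact h1
    rw [th_in k J z ⟨hJ, h⟩, th'_inl]

private theorem th'_inl_mem (c : Fp (P2 k) (J' J z)) :
    th' k J z (Coprod.inl c) ∈ Sb (P2 k) I {i | i ≠ z} := by
  rw [mem_Sb]
  refine hom_ext' ((ret (P2 k) I {i | i ≠ z}).comp ((th' k J z).comp Coprod.inl))
    ((th' k J z).comp Coprod.inl) (fun i g => ?_) c
  rw [MonoidHom.comp_apply, MonoidHom.comp_apply, th'_inl]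
  exact ret_of_mem (show i.1 ∈ {i | i ≠ z} from i.2.2) g

private theorem th_mem {y : Fp (P2 k) I} (hy : y ∈ Sb (P2 k) I {i | i ≠ z}) :
    th k J z y = Coprod.inl (Coprod.fst (th k J z y)) := by
  refine hom_eq_on (th k J z)
    ((Coprod.inl : Fp (P2 k) (J' J z) →* Coprod (Fp (P2 k) (J' J z)) (P2 k)).comp
      (Coprod.fst.comp (th k J z))) (fun i hi g => ?_) hy
  rw [MonoidHom.comp_apply, MonoidHom.comp_apply]
  have hi' : i ≠ z := hi
  by_cases h : i ∈ J
  · rw [th_in k J z ⟨h, hi'⟩, Coprod.fst_apply_inl]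
  · rw [th_out k J z h hi', map_one, map_one]

end

theorem hLOC (hLIN : StLIN.{w, x}) : StLOC.{w, x} := by
  intro k _ I R z m hm hNC w hw hwN
  classical
  obtain ⟨J1, hJ1⟩ := exists_finite R
  obtain ⟨J2, hJ2⟩ := exists_finite w
  set J := J1 ∪ J2 with hJ
  have s1 : (J1 : Set I) ⊆ {i | i = z ∨ i ∈ J} := fun i hi =>
    Or.inr (Finset.mem_union_left _ (Finset.mem_coe.1 hi))
  have s2 : (J2 : Set I) ⊆ {i | i = z ∨ i ∈ J} := fun i hi =>
    Or.inr (Finset.mem_union_right _ (Finset.mem_coe.1 hi))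
  have eR := th'_th k J z rfl (hJ1 _ s1)
  have ew := th'_th k J z rfl (hJ2 _ s2)
  have hc := th_mem k J z hw
  set c := Coprod.fst (th k J z w) with hcdef
  have hN : (Coprod.inl c : Coprod (Fp (P2 k) (J' J z)) (P2 k)) ∈
      Subgroup.normalClosure ({th k J z R ^ m} : Set (Coprod (Fp (P2 k) (J' J z)) (P2 k))) := by
    rw [← hc]
    have h1 : Subgroup.normalClosure ({R ^ m} : Set (Fp (P2 k) I)) ≤
        (Subgroup.normalClosure
          ({th k J z R ^ m} : Set (Coprod (Fp (P2 k) (J' J z)) (P2 k)))).comap (th k J z) := by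
      apply Subgroup.normalClosure_le_normal
      rintro _ rfl
      refine Subgroup.mem_comap.2 ?_
      rw [map_pow]
      exact Subgroup.subset_normalClosure (Set.mem_singleton _)
    exact h1 hwN
  have hfin : c = 1 → w = 1 := by
    intro h
    rw [← ew, hc, h, map_one, map_one]
  apply hfin
  have ha : ∀ c', ¬ IsConj (th k J z R) (Coprod.inl c') := by
    intro c' h
    have h2 := (th' k J z).map_isConj h
    rw [eR] at h2
    exact hNC _ (th'_inl_mem k J z c') h2
  by_cases hb : ∃ c', IsConj (th k J z R) (Coprod.inr c')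
  · obtain ⟨c', hc'⟩ := hb
    have h2 := (Coprod.fst : Coprod (Fp (P2 k) (J' J z)) (P2 k) →* Fp (P2 k) (J' J z)).map_isConj hc'
    rw [Coprod.fst_apply_inr, isConj_one_left] at h2
    have h3 : Subgroup.normalClosure
        ({th k J z R ^ m} : Set (Coprod (Fp (P2 k) (J' J z)) (P2 k))) ≤
        (Coprod.fst : Coprod (Fp (P2 k) (J' J z)) (P2 k) →* Fp (P2 k) (J' J z)).ker := by
      apply Subgroup.normalClosure_le_normal
      rintro _ rfl
      show Coprod.fst (th k J z R ^ m) = 1
      rw [map_pow, h2, one_pow]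
    have h4 := h3 hN
    rwa [MonoidHom.mem_ker, Coprod.fst_apply_inl] at h4
  · push Not at hb
    by_contra hne
    have : Finite (J' J z) :=
      Finite.of_injective (fun i : J' J z => (⟨i.1, i.2.1⟩ : J)) fun i j hij =>
        Subtype.ext (congrArg (fun t : J => (t : I)) hij)
    obtain ⟨k', _, φ, ψ, hφ, hψ⟩ := hLIN k (J' J z)
    have hrd : Function.Injective (rd k') := pm_inj _ (IsLocalRing.residue k').injective
    have hWr := gh_wr (R := k') (α := φ) (β := ψ) ha hb (Or.inr ⟨hrd.comp hφ, hrd.comp hψ⟩)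
    exact inl_notMem k' φ ψ (th k J z R) hWr hm (fun h => hne (hφ (by rw [h, map_one]))) hN

end Pool.Agent.Helper32.OF
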